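import Pool.Agent.W_448h2_h63.HA
import Pool.Agent.W_448sk_h15.IFK

/-!
(H) for Gaussian posets (MP_448cb3_co), Route T: the states of the toggles and of the swap of the
unmatched elements are not changed by the swap at a simple edge.
-/

namespace Pool.Agent.GaussPoset.Win.H2

set_option linter.unusedSectionVars false

open Finset I2 K2 Ut

universe u

variable {P : Type u} [Fintype P] [PartialOrder P] [DecidableEq P] {r i : ℕ} {e : P → ℕ}

variable {ι : Type*} [DecidableEq ι] {κ : P → ι} {K : Finset P} {psi : P → P}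

section sw

variable (hM : Mat P i K psi) (H : Gr P r) {y0 : P} (hy0 : y0 ∈ SK i K psi e)
include hM H hy0

/-- the data of a simple edge -/
lemma sk_data : lev y0 = i + 1 ∧ (uc y0).card = 2 ∧ lev (psi y0) + 1 = i ∧
    dc (psi y0) = uc y0 ∧ psi (psi y0) = y0 ∧ y0 ∉ K ∧ psi y0 ∉ K ∧ Smp psi e y0 := by
  obtain ⟨h1, h2, h3⟩ := mem_SK.1 hy0
  obtain ⟨p1, p2, p3, p4⟩ := K2.psi_low hM h1 h2
  have h4 := mem_dbL'.1 h1
  have h5 := mem_dbU'.1 p1
  exact ⟨h4.1, h4.2, h5.1, p2, p3, h2, p4, h3⟩

/-- a swap as seen from the new configuration -/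
lemma sk_back : y0 ∈ SK i K psi (sw psi y0 e) := by
  rw [K2.SK_sw hM H hy0]
  exact hy0

lemma StA_sw1 {d : P} {s : Sw P} (Q : SwOK P i d s) (h : StA d s e) :
    StA d s (sw psi y0 e) := by
  obtain ⟨l1, -, l2, p2, -, -, -, hS⟩ := sk_data hM H hy0
  refine h.of_rd ?_
  intro y hy
  have h1 := Q.lw H
  have h2 := Q.lp H
  have h3 := Q.ld
  have h4 := Q.lx
  refine sw_ne e ?_ ?_
  · rintro rfl
    rcases hy with rfl | rfl | rfl | rfl | rfl | rfl | hy | ⟨-, hy | hy⟩ | hy
    · have := hS.lo d (mem_dc.2 Q.cov_w)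
      have := h.d2
      omega
    · have := hS.lo d (mem_dc.2 Q.cov_w')
      have := h.d2
      omega
    · omega
    · omega
    · omega
    · omega
    · have := lev_uc H (mem_uc.2 hy)
      omega
    · have := lev_uc H (mem_uc.2 hy)
      omega
    · have := lev_uc H (mem_uc.2 hy)
      omega
    · have := lev_uc H (mem_uc.2 hy)
      omega
  · rintro rfl
    rcases hy with hy | hy | hy | hy | hy | hy | hy | ⟨-, hy | hy⟩ | hy
    · rw [hy] at l2; omega
    · rw [hy] at l2; omega
    · rw [hy] at l2; omega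
    · rw [hy] at l2; omega
    · rw [hy] at l2; omega
    · rw [hy] at l2; omega
    · have := lev_uc H (mem_uc.2 hy)
      omega
    · have := lev_uc H (mem_uc.2 hy)
      omega
    · have := lev_uc H (mem_uc.2 hy)
      omega
    · have hx : s.x ∈ uc y0 := by
        rw [← p2]
        exact mem_dc.2 hy
      have hw := Q.cov_x (mem_uc.1 hx)
      rcases hw with hw | hw
      · have := hS.lo d (mem_dc.2 (by rw [hw]; exact Q.cov_w))
        have := h.d2
        omega
      · have := hS.lo d (mem_dc.2 (by rw [hw]; exact Q.cov_w'))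
        have := h.d2
        omega

lemma StB_sw1 {d : P} {s : Sw P} (Q : SwOK P i d s) (h : StB d s e) :
    StB d s (sw psi y0 e) := by
  obtain ⟨l1, -, l2, p2, -, -, -, hS⟩ := sk_data hM H hy0
  refine h.of_rd ?_
  intro y hy
  have h1 := Q.lw H
  have h2 := Q.lp H
  have h3 := Q.ld
  have h4 := Q.lx
  refine sw_ne e ?_ ?_
  · rintro rfl
    rcases hy with rfl | rfl | rfl | rfl | rfl | rfl | hy | ⟨-, hy | hy⟩ | hy
    · have := hS.lo d (mem_dc.2 Q.cov_w)
      have := h.d1
      omega
    · have := hS.lo d (mem_dc.2 Q.cov_w')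
      have := h.d1
      omega
    · omega
    · omega
    · omega
    · omega
    · have := lev_uc H (mem_uc.2 hy)
      omega
    · have := lev_uc H (mem_uc.2 hy)
      omega
    · have := lev_uc H (mem_uc.2 hy)
      omega
    · have := lev_uc H (mem_uc.2 hy)
      omega
  · rintro rfl
    rcases hy with hy | hy | hy | hy | hy | hy | hy | ⟨-, hy | hy⟩ | hy
    · rw [hy] at l2; omega
    · rw [hy] at l2; omega
    · rw [hy] at l2; omega
    · rw [hy] at l2; omega
    · rw [hy] at l2; omega
    · rw [hy] at l2; omega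
    · have := lev_uc H (mem_uc.2 hy)
      omega
    · have := lev_uc H (mem_uc.2 hy)
      omega
    · have := lev_uc H (mem_uc.2 hy)
      omega
    · have hx : s.x ∈ uc y0 := by
        rw [← p2]
        exact mem_dc.2 hy
      have hw := Q.cov_x (mem_uc.1 hx)
      rcases hw with hw | hw
      · have := hS.lo d (mem_dc.2 (by rw [hw]; exact Q.cov_w))
        have := h.d1
        omega
      · have := hS.lo d (mem_dc.2 (by rw [hw]; exact Q.cov_w'))
        have := h.d1
        omega

/-- STATE `A` OF A TOGGLE is not changed by a simple swap -/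
theorem StA_sw {d : P} {s : Sw P} (Q : SwOK P i d s) :
    StA d s (sw psi y0 e) ↔ StA d s e := by
  constructor
  · intro h
    have := StA_sw1 hM H (sk_back hM H hy0) Q h
    rwa [sw_sw] at this
  · exact StA_sw1 hM H hy0 Q

/-- STATE `B` OF A TOGGLE is not changed by a simple swap -/
theorem StB_sw {d : P} {s : Sw P} (Q : SwOK P i d s) :
    StB d s (sw psi y0 e) ↔ StB d s e := by
  constructor
  · intro h
    have := StB_sw1 hM H (sk_back hM H hy0) Q h
    rwa [sw_sw] at this
  · exact StB_sw1 hM H hy0 Q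

/-- a simple edge is not next to the swap of two unmatched elements -/
lemma ks_far {y u : P} (hy : y ∈ K) (hu : u ∈ K) (hyd : y ∈ dbL P i) (hud : u ∈ dbU P i)
    (h : KsC y u e) {x : P} (hx : x ∈ uc y ∪ dc u) : y0 ∉ dc x ∧ psi y0 ∉ uc x := by
  obtain ⟨l1, -, l2, p2, -, k1, k2, hS⟩ := sk_data hM H hy0
  have key : y0 ∈ dc x → False := by
    intro h1
    have h2 : psi y0 ∈ uc x := by
      rw [mem_uc, ← mem_dc, p2]
      exact mem_uc.2 (mem_dc.1 h1)
    have h3 := h.lo x hx y0 h1 (by rintro rfl; exact k1 hy)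
    have h4 := h.up x hx (psi y0) h2 (by
      intro h5
      rw [h5] at k2
      exact k2 hu)
    rcases hS.one with h5 | h5 <;> omega
  refine ⟨key, fun h2 => key ?_⟩
  rw [mem_dc, ← mem_uc, ← p2]
  exact mem_dc.2 (mem_uc.1 h2)

lemma KsC_sw1 {y u : P} (hy : y ∈ K) (hu : u ∈ K) (hyd : y ∈ dbL P i) (hud : u ∈ dbU P i)
    (h : KsC y u e) : KsC y u (sw psi y0 e) ∧ sw psi y0 e y = e y ∧ sw psi y0 e u = e u := by
  obtain ⟨l1, -, l2, p2, -, k1, k2, hS⟩ := sk_data hM H hy0
  have hyl := mem_dbL'.1 hyd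
  have hul := mem_dbU'.1 hud
  have hlx : ∀ x ∈ uc y ∪ dc u, lev x = i := by
    intro x hx
    rcases mem_union.1 hx with h1 | h1
    · have := lev_uc H h1
      omega
    · have := lev_dc H h1
      omega
  have hlv : ∀ x, lev x ≠ i + 1 → lev x + 1 ≠ i → sw psi y0 e x = e x := by
    intro x h1 h2
    refine sw_ne e ?_ ?_
    · rintro rfl
      exact h1 l1
    · rintro rfl
      exact h2 l2
  refine ⟨⟨?_, ?_, ?_, ?_, ?_⟩, ?_, ?_⟩
  · intro x hx
    have := hlx x hx
    rw [hlv x (by omega) (by omega)]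
    exact h.s0 x hx
  · intro x hx w hw hwy
    have h1 := hlx x hx
    have h2 := lev_dc H hw
    rw [sw_ne e]
    · exact h.lo x hx w hw hwy
    · rintro rfl
      exact (ks_far hM H hy0 hy hu hyd hud h hx).1 hw
    · rintro rfl
      omega
  · intro x hx v hv hvu
    have h1 := hlx x hx
    have h2 := lev_uc H hv
    rw [sw_ne e]
    · exact h.up x hx v hv hvu
    · rintro rfl
      omega
    · rintro rfl
      exact (ks_far hM H hy0 hy hu hyd hud h hx).2 hv
  · intro z hz
    have := lev_dc H hz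
    rw [hlv z (by omega) (by omega)]
    exact h.dy z hz
  · intro v hv
    have := lev_uc H hv
    rw [hlv v (by omega) (by omega)]
    exact h.uu v hv
  · refine sw_ne e ?_ ?_
    · rintro rfl
      exact k1 hy
    · rintro rfl
      exact k2 hy
  · refine sw_ne e ?_ ?_
    · rintro rfl
      exact k1 hu
    · rintro rfl
      exact k2 hu

/-- the first state of the swap of unmatched elements is not changed by a simple swap -/
theorem KsA_sw {y u : P} (hy : y ∈ K) (hu : u ∈ K) (hyd : y ∈ dbL P i) (hud : u ∈ dbU P i) :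
    KsA y u (sw psi y0 e) ↔ KsA y u e := by
  constructor
  · intro h
    have h1 := KsC_sw1 hM H (sk_back hM H hy0) hy hu hyd hud h.toKsC
    rw [sw_sw] at h1
    exact ⟨h1.1, by rw [h1.2.1]; exact h.ey, by rw [h1.2.2]; exact h.eu⟩
  · intro h
    have h1 := KsC_sw1 hM H hy0 hy hu hyd hud h.toKsC
    exact ⟨h1.1, by rw [h1.2.1]; exact h.ey, by rw [h1.2.2]; exact h.eu⟩

/-- the second state of the swap of unmatched elements is not changed by a simple swap -/
theorem KsB_sw {y u : P} (hy : y ∈ K) (hu : u ∈ K) (hyd : y ∈ dbL P i) (hud : u ∈ dbU P i) :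
    KsB y u (sw psi y0 e) ↔ KsB y u e := by
  constructor
  · intro h
    have h1 := KsC_sw1 hM H (sk_back hM H hy0) hy hu hyd hud h.toKsC
    rw [sw_sw] at h1
    exact ⟨h1.1, by rw [h1.2.1]; exact h.ey, by rw [h1.2.2]; exact h.eu⟩
  · intro h
    have h1 := KsC_sw1 hM H hy0 hy hu hyd hud h.toKsC
    exact ⟨h1.1, by rw [h1.2.1]; exact h.ey, by rw [h1.2.2]; exact h.eu⟩

/-- the touched components are not changed by a simple swap -/
theorem Tch_sw (hκ : Split (i + 1) κ) :
    Ut.Tch (i + 1) κ (sw psi y0 e) = Ut.Tch (i + 1) κ e := by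
  obtain ⟨l1, -, l2, p2, -, k1, k2, hS⟩ := sk_data hM H hy0
  refine Tch_congr fun z hz => ?_
  rw [sw_ne e]
  · rintro rfl
    exact hz (le_mem_cuni hκ (by omega))
  · rintro rfl
    exact hz (le_mem_cuni hκ (by omega))

/-- the configurations on a part are exchanged by a simple swap -/
theorem pa_sw {C : Finset P} (hC : Part (i + 1) C) (n : ℕ) :
    sw psi y0 e ∈ C.piAntidiag n ↔ e ∈ C.piAntidiag n := by
  rw [mem_pa, mem_pa, sum_sw]
  constructor
  · rintro ⟨h1, h2⟩
    refine ⟨h1, ?_⟩
    have := K2.spt_sw hM H hC h2 (sk_back hM H hy0)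
    rwa [sw_sw] at this
  · rintro ⟨h1, h2⟩
    exact ⟨h1, K2.spt_sw hM H hC h2 hy0⟩

end sw

end Pool.Agent.GaussPoset.Win.H2
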