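import Pool.Agent.W_448so_h63.GK

/-!
(H) for Gaussian posets (MP_448cb3_co), Route T, proofs row 517: the inequality on one side of a
window with a free set `G`.
-/

namespace Pool.Agent.GaussPoset.Win.H2

set_option linter.unusedSectionVars false

open Finset I2 K2

universe u

variable {P : Type u} [DecidableEq P]

variable {c c' : P → Finset P} {e : P → ℕ} {t : P → ℕ} {V Sd : Finset P}

/-- two covers of an element at distance two, one of them double, have a common cover -/
def TG (c : P → Finset P) (t : P → ℕ) (Sd : Finset P) : Prop :=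
  ∀ z ∈ Sd, t z = 2 → ∀ y ∈ c z, ∀ y' ∈ c z, y ≠ y' → (c y).card = 2 → ∃ x, x ∈ c y ∧ x ∈ c y'

/-- a killer away from a bad element has one cover only -/
lemma single_of_bd (S : SideQ c c' t V Sd) (hT : TG c t Sd)
    (adm : ∀ z ∈ Sd, ¬ (kd c' e z ∧ gu c e z)) {y z : P}
    (hy : y ∈ bd c c' e t Sd) (hz : z ∈ c' y) (hk : kl c e z) : c z = {y} ∧ 2 ≤ e z := by
  rw [mem_bd] at hy
  obtain ⟨hyS, ty, ey, ky, cy⟩ := hy
  have hzS : z ∈ Sd := S.cout y (Or.inl hyS) z hz
  have hyz : y ∈ c z := (S.dual z y).2 hz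
  have tz : t z = 2 := by
    have := (S.cin z hzS y hyz).2
    omega
  have ez : 2 ≤ e z := K2.t_le_of_kl S adm 2 z hzS hk tz
  refine ⟨?_, ez⟩
  have hky : kd c' e y := ⟨z, hz, by omega⟩
  rw [Finset.eq_singleton_iff_unique_mem]
  refine ⟨hyz, fun y' hy' => ?_⟩
  by_contra hne
  obtain ⟨x, hx, hx'⟩ := hT z hzS tz y hyz y' hy' (fun h => hne h.symm) (K2.cc_eq_two S cy).1
  have ex : e x < e y := by
    by_contra h
    exact adm y hyS ⟨hky, x, hx, by omega⟩
  have hy'S : y' ∈ Sd := by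
    have h1 := S.cin z hzS y' hy'
    rcases h1.1 with h | h
    · exact h
    · have := S.tV y' h
      omega
  have ey' : 1 ≤ e y' := by
    by_contra h
    have h1 : kd c' e y' := ⟨z, (S.dual z y').1 hy', by omega⟩
    exact adm y' hy'S ⟨h1, x, hx', by omega⟩
  have h1 := (K2.cc_eq_two S cy).2 x hx ex
  have h2 : y ∈ kr c' e x := mem_kr.2 ⟨(S.dual y x).1 hx, ex⟩
  have h3 : y' ∈ kr c' e x := mem_kr.2 ⟨(S.dual y' x).1 hx', by omega⟩
  rw [Finset.card_eq_one] at h1
  obtain ⟨w, hw⟩ := h1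
  rw [hw, mem_singleton] at h2 h3
  exact hne (h3.trans h2.symm)

lemma sur_away (S : SideQ c c' t V Sd) (hT : TG c t Sd)
    (adm : ∀ z ∈ Sd, ¬ (kd c' e z ∧ gu c e z)) {y z : P}
    (hy : y ∈ bd c c' e t Sd) (hz : z ∈ c' y) (he : 1 ≤ e z) : 1 ≤ sur c c' e z := by
  classical
  unfold sur
  split_ifs with h
  · obtain ⟨h1, h2⟩ := single_of_bd S hT adm hy hz h
    have h3 : (kn c e z).card ≤ 1 := by
      refine (card_le_card (filter_subset _ _)).trans ?_
      rw [h1, card_singleton]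
    have h4 := so_le (c := c) (c' := c') (e := e) z
    have h5 : ¬ gu c e z := by
      rintro ⟨a, ha, hle⟩
      obtain ⟨b, hb, hlt⟩ := h
      rw [h1, mem_singleton] at ha hb
      subst ha
      subst hb
      omega
    unfold cc
    rw [if_neg h5]
    omega
  · omega

/-- payment for the bad elements with an excited cover away from the window -/
theorem pay (S : SideQ c c' t V Sd) (hT : TG c t Sd)
    (adm : ∀ z ∈ Sd, ¬ (kd c' e z ∧ gu c e z)) {B : Finset P}
    (hB : B ⊆ bd c c' e t Sd) (hex : ∀ y ∈ B, ∃ z ∈ c' y, 1 ≤ e z) :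
    ∃ Z X : Finset P, (∀ z ∈ Z, z ∈ Sd ∧ t z = 2 ∧ 1 ≤ sur c c' e z ∧ ∃ y ∈ B, z ∈ c' y) ∧
      (∀ x ∈ X, x ∈ V ∧ 1 ≤ e x ∧ (∃ y, y ∈ c' x) ∧ ∀ y ∈ c' x, y ∈ B) ∧
      B.card ≤ Z.card + X.card := by
  classical
  choose! f hf using hex
  set Z := B.image f with hZ
  set Z2 := Z.filter (fun z => 2 ≤ (B.filter (fun y => f y = z)).card) with hZ2
  have hzZ : ∀ z ∈ Z, ∃ y ∈ B, f y = z := fun z hz => by simpa [hZ] using hz
  have hpair : ∀ z ∈ Z2, ∃ y ∈ B, ∃ y' ∈ B, y ≠ y' ∧ f y = z ∧ f y' = z := by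
    intro z hz
    rw [hZ2, mem_filter] at hz
    have h1 : 1 < (B.filter (fun y => f y = z)).card := by omega
    rw [Finset.one_lt_card] at h1
    obtain ⟨y, hy, y', hy', hne⟩ := h1
    rw [mem_filter] at hy hy'
    exact ⟨y, hy.1, y', hy'.1, hne, hy.2, hy'.2⟩
  choose! g hg g' hg' hne hfg hfg' using hpair
  have hmid : ∀ z ∈ Z2, ∃ x ∈ V, x ∈ c (g z) ∧ x ∈ c (g' z) ∧ 1 ≤ e x := by
    intro z hz
    have h1 := (hf (g z) (hg z hz)).1
    have h2 := (hf (g' z) (hg' z hz)).1
    rw [hfg z hz] at h1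
    rw [hfg' z hz] at h2
    exact K2.mid_of_bd S adm (hB (hg z hz)) (hB (hg' z hz)) (hne z hz) h1 h2
  choose! m hmV hm hm' hme using hmid
  have hlow : ∀ z ∈ Z2, c' (m z) = {g z, g' z} := by
    intro z hz
    symm
    apply Finset.eq_of_subset_of_card_le
    · intro y hy
      rw [mem_insert, mem_singleton] at hy
      rcases hy with rfl | rfl
      · exact (S.dual _ _).1 (hm z hz)
      · exact (S.dual _ _).1 (hm' z hz)
    · rw [Finset.card_pair (hne z hz)]
      exact S.c2' _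
  have hinj : Set.InjOn m Z2 := by
    intro z hz z' hz' h
    have h1 := hlow z hz
    rw [h, hlow z' hz'] at h1
    have h2 : g z ∈ ({g z', g' z'} : Finset P) := by
      rw [h1]
      exact mem_insert_self _ _
    rw [mem_insert, mem_singleton] at h2
    rw [← hfg z hz]
    rcases h2 with h2 | h2
    · rw [h2]
      exact hfg z' hz'
    · rw [h2]
      exact hfg' z' hz'
  refine ⟨Z, Z2.image m, ?_, ?_, ?_⟩
  · intro z hz
    obtain ⟨y, hy, rfl⟩ := hzZ z hz
    have h1 := hB hy
    have h2 := (mem_bd.1 h1)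
    have h3 : f y ∈ Sd := S.cout y (Or.inl h2.1) _ (hf y hy).1
    refine ⟨h3, ?_, sur_away S hT adm h1 (hf y hy).1 (hf y hy).2, y, hy, (hf y hy).1⟩
    have h4 := (S.cin (f y) h3 y ((S.dual _ _).2 (hf y hy).1)).2
    omega
  · intro x hx
    rw [mem_image] at hx
    obtain ⟨z, hz, rfl⟩ := hx
    have h1 := hlow z hz
    refine ⟨hmV z hz, hme z hz, ⟨g z, ?_⟩, ?_⟩
    · rw [h1]
      exact mem_insert_self _ _
    · intro y hy
      rw [h1, mem_insert, mem_singleton] at hy
      rcases hy with rfl | rfl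
      · exact hg z hz
      · exact hg' z hz
  · rw [Finset.card_image_of_injOn hinj]
    have h1 : B.card = ∑ z ∈ Z, (B.filter (fun y => f y = z)).card :=
      Finset.card_eq_sum_card_image f B
    have h2 : ∀ z ∈ Z, (B.filter (fun y => f y = z)).card ≤
        1 + (if 2 ≤ (B.filter (fun y => f y = z)).card then 1 else 0) := by
      intro z hz
      have h3 : B.filter (fun y => f y = z) ⊆ c z := by
        intro y hy
        rw [mem_filter] at hy
        have := (hf y hy.1).1
        rw [hy.2] at this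
        exact (S.dual _ _).2 this
      have h4 := card_le_card h3
      have := S.c2 z
      split_ifs <;> omega
    rw [h1]
    refine (Finset.sum_le_sum h2).trans (le_of_eq ?_)
    rw [Finset.sum_add_distrib, Finset.sum_const, smul_eq_mul, mul_one, ← Finset.card_filter]

/-- THE INEQUALITY ON ONE SIDE with a free set `G` and a set `F` of far elements -/
theorem side_bound_G (S : SideQ c c' t V Sd) (hT : TG c t Sd)
    (adm : ∀ z ∈ Sd, ¬ (kd c' e z ∧ gu c e z)) {B G : Finset P} (hB : B ⊆ bd c c' e t Sd)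
    (hex : ∀ y ∈ B, ∃ z ∈ c' y, 1 ≤ e z) (hG : G ⊆ Sd) (hBG : Disjoint B G)
    (hGp : ∀ y ∈ B, ∀ z ∈ c' y, z ∉ G) :
    ∃ X : Finset P, (∀ x ∈ X, x ∈ V ∧ 1 ≤ e x ∧ (∃ y, y ∈ c' x) ∧ ∀ y ∈ c' x, y ∈ B) ∧
      (∀ F : Finset P, F ⊆ Sd → Disjoint F G → (∀ z ∈ F, 3 ≤ t z ∧ 1 ≤ e z) →
      2 * ((KD c' e V).card : ℤ) + ∑ z ∈ G, sur c c' e z + F.card ≤
        ∑ z ∈ Sd, (e z : ℤ) + 2 * ((fr c c' e Sd).card : ℤ) +
        ((bd c c' e t Sd) \ (B ∪ G)).card + X.card) := by
  classical
  obtain ⟨Z, X, hZ, hX, hc⟩ := pay S hT adm hB hex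
  refine ⟨X, hX, fun F hF hFG hF3 => ?_⟩
  have h1 := K2.sum_cc S adm
  have h2 : ∑ z ∈ Sd, sur c c' e z = ∑ z ∈ Sd, (e z : ℤ) - ∑ z ∈ KK c e Sd, cc c c' e z := by
    unfold sur KK
    rw [Finset.sum_sub_distrib, Finset.sum_filter]
  have h3 : ∑ z ∈ Sd, ((if z ∈ Z then (1 : ℤ) else 0) + (if z ∈ G then sur c c' e z else 0) +
      (if z ∈ F then 1 else 0) - (if z ∈ bd c c' e t Sd \ G then 1 else 0)) ≤
      ∑ z ∈ Sd, sur c c' e z := by
    refine Finset.sum_le_sum fun z hz => ?_
    by_cases hg : z ∈ G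
    · have h5 : z ∉ Z := by
        intro h
        obtain ⟨-, -, -, y, hy, hzy⟩ := hZ z h
        exact hGp y hy z hzy hg
      have h6 : z ∉ F := fun h => disjoint_left.1 hFG h hg
      have h7 : z ∉ bd c c' e t Sd \ G := by
        rw [mem_sdiff]
        exact fun h => h.2 hg
      rw [if_neg h5, if_pos hg, if_neg h6, if_neg h7]
      omega
    · rw [if_neg hg]
      by_cases hf : z ∈ F
      · have h4 := hF3 z hf
        have h5 : z ∉ Z := by
          intro h
          have := (hZ z h).2.1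
          omega
        have h7 : z ∉ bd c c' e t Sd \ G := by
          rw [mem_sdiff, mem_bd]
          intro h
          omega
        have h8 := K2.sur_pos S adm hz h4.1 h4.2
        rw [if_neg h5, if_pos hf, if_neg h7]
        omega
      · rw [if_neg hf]
        by_cases h5 : z ∈ Z
        · have h6 := hZ z h5
          have h7 : z ∉ bd c c' e t Sd \ G := by
            rw [mem_sdiff, mem_bd]
            intro h
            have := h6.2.1
            omega
          rw [if_pos h5, if_neg h7]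
          have := h6.2.2.1
          omega
        · rw [if_neg h5]
          split_ifs with h6
          · have := K2.sur_ge S adm hz
            omega
          · have := K2.sur_nonneg S adm hz (fun h => h6 (mem_sdiff.2 ⟨h, hg⟩))
            omega
  rw [Finset.sum_sub_distrib, Finset.sum_add_distrib, Finset.sum_add_distrib,
    ← Finset.sum_filter, ← Finset.sum_filter, ← Finset.sum_filter, ← Finset.sum_filter,
    Finset.sum_const, Finset.sum_const, Finset.sum_const] at h3
  have h9 : Sd.filter (fun z => z ∈ Z) = Z := by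
    ext z
    rw [mem_filter]
    exact ⟨fun h => h.2, fun h => ⟨(hZ z h).1, h⟩⟩
  have h9' : Sd.filter (fun z => z ∈ G) = G := by
    ext z
    rw [mem_filter]
    exact ⟨fun h => h.2, fun h => ⟨hG h, h⟩⟩
  have h9'' : Sd.filter (fun z => z ∈ F) = F := by
    ext z
    rw [mem_filter]
    exact ⟨fun h => h.2, fun h => ⟨hF h, h⟩⟩
  have h10 : Sd.filter (fun z => z ∈ bd c c' e t Sd \ G) = bd c c' e t Sd \ G := by
    ext z
    rw [mem_filter]
    exact ⟨fun h => h.2, fun h => ⟨(mem_bd.1 (mem_sdiff.1 h).1).1, h⟩⟩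
  rw [h9, h9', h9'', h10] at h3
  simp only [nsmul_eq_mul, mul_one] at h3
  have h11 : ((bd c c' e t Sd) \ (B ∪ G)).card + B.card = (bd c c' e t Sd \ G).card := by
    rw [← Finset.card_sdiff_add_card_eq_card (s := B) (t := bd c c' e t Sd \ G)]
    · congr 2
      ext z
      simp only [mem_sdiff, mem_union]
      tauto
    · intro y hy
      exact mem_sdiff.2 ⟨hB hy, disjoint_left.1 hBG hy⟩
  rw [h2, h1] at h3
  have h12 : (((bd c c' e t Sd) \ (B ∪ G)).card : ℤ) + B.card = (bd c c' e t Sd \ G).card := by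
    exact_mod_cast h11
  have h13 : (B.card : ℤ) ≤ Z.card + X.card := by exact_mod_cast hc
  linarith

end Pool.Agent.GaussPoset.Win.H2
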